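import Pool.Agent.H.MP_ded0ac_co.E

set_option autoImplicit false

namespace Pool.Agent.H.MP_7297ca_co

open Set MeasureTheory Real Pool.Agent.H.MP_ded0ac_co

noncomputable def vt (n : ℕ) (φ ε : ℝ) (m : ℤ) : ℂ :=
  R n • E (φ + 2 * π * m / n) + ε • R n • E φ

def pl (n : ℕ) (φ ε : ℝ) : Set ℂ := convexHull ℝ (range (vt n φ ε))

def UU (k n : ℕ) (θ ε : ℝ) : Set ℂ := ⋃ i : ℤ, pl n (θ + 2 * π * i / k) ε

lemma vt_eq (n : ℕ) (φ ε : ℝ) : vt n φ ε = vert n φ ε 0 := by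
  funext m; simp [vt, vert]

lemma pl_eq (n : ℕ) (φ ε : ℝ) : pl n φ ε = poly n φ ε 0 := by rw [pl, vt_eq]; rfl

lemma nu0 (n : ℕ) (φ : ℝ) (m : ℤ) : nu n φ 0 m = φ + (2 * m + 1) * (π / n) := by simp [nu]

lemma pl_convex (n : ℕ) (φ ε : ℝ) : Convex ℝ (pl n φ ε) := convex_convexHull ℝ _

lemma vt_mem (n : ℕ) (φ ε : ℝ) (m : ℤ) : vt n φ ε m ∈ pl n φ ε := subset_convexHull ℝ _ ⟨m, rfl⟩

lemma vt_per1 (n : ℕ) (φ ε : ℝ) (p : ℤ) : vt n (φ + p * (2 * π)) ε = vt n φ ε := by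
  funext m
  unfold vt
  rw [E_per, add_right_comm, E_per]

lemma pl_per (n : ℕ) (φ ε : ℝ) (p : ℤ) : pl n (φ + p * (2 * π)) ε = pl n φ ε := by
  rw [pl, vt_per1]; rfl

lemma sign_change {f : ℤ → ℝ} {a b : ℤ} (hab : a < b) (ha : 0 ≤ f a) (hb : f b ≤ 0) :
    ∃ j, 0 ≤ f j ∧ f (j + 1) ≤ 0 := by
  by_contra hc
  push Not at hc
  have : ∀ m : ℕ, 0 < f (a + m + 1) := by
    intro m
    induction m with
    | zero => simpa using hc a ha
    | succ m ih => push_cast; rw [← add_assoc]; exact hc _ ih.le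
  have h := this (b - a - 1).toNat
  rw [Int.toNat_of_nonneg (by omega), show a + (b - a - 1) + 1 = b by ring] at h
  linarith

lemma tri_convex (A B : ℂ) : Convex ℝ (tri A B) := by
  rintro _ ⟨s, t, h1, h2, h3, rfl⟩ _ ⟨s', t', h1', h2', h3', rfl⟩ a b ha hb hab
  refine ⟨a * s + b * s', a * t + b * t', by positivity, by positivity, by nlinarith, ?_⟩
  match_scalars <;> ring

lemma tri_seg {A B x : ℂ} (hx : x ∈ tri A B) (h0 : x ≠ 0) :
    ∃ l : ℝ, 0 < l ∧ l ≤ 1 ∧ ∃ y ∈ segment ℝ A B, x = l • y := by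
  obtain ⟨s, t, h1, h2, h3, rfl⟩ := hx
  rcases (add_nonneg h1 h2).eq_or_lt with h4 | h4
  · exfalso
    have : s = 0 := by linarith
    have : t = 0 := by linarith
    subst_vars
    simp at h0
  · refine ⟨s + t, h4, h3, (s / (s + t)) • A + (t / (s + t)) • B,
      ⟨_, _, by positivity, by positivity, by field_simp, rfl⟩, ?_⟩
    rw [smul_add, smul_smul, smul_smul, mul_div_cancel₀ _ h4.ne', mul_div_cancel₀ _ h4.ne']

lemma tri_ae {S : Set ℂ} (hS : ∀ y ∈ frontier S, ∀ l : ℝ, 0 ≤ l → l < 1 → l • y ∈ interior S)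
    {A B C D : ℂ} (h1 : segment ℝ A B ⊆ frontier S) (h2 : segment ℝ C D ⊆ frontier S)
    (h : (segment ℝ A B ∩ segment ℝ C D).Subsingleton) : AEDisjoint volume (tri A B) (tri C D) := by
  obtain ⟨z, hz⟩ : ∃ z : ℂ, segment ℝ A B ∩ segment ℝ C D ⊆ {z} := by
    rcases h.eq_empty_or_singleton with e | ⟨z, e⟩
    · exact ⟨0, by rw [e]; exact empty_subset _⟩
    · exact ⟨z, e.subset⟩
  have : tri A B ∩ tri C D ⊆ tri z z := by
    rintro x ⟨hx, hx'⟩
    by_cases h0 : x = 0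
    · exact ⟨0, 0, le_rfl, le_rfl, by norm_num, by simp [h0]⟩
    obtain ⟨l, l0, l1, y, hy, e⟩ := tri_seg hx h0
    obtain ⟨l', l0', l1', y', hy', e'⟩ := tri_seg hx' h0
    have k : ∀ (l l' : ℝ) (y y' : ℂ), 0 < l → 0 < l' → l • y = l' • y' → y ∈ frontier S →
        y' ∈ frontier S → l' ≤ l := by
      intro l l' y y' a b c d d'
      by_contra hc
      push Not at hc
      have := hS y d (l / l') (by positivity) ((div_lt_one b).2 hc)
      rw [div_eq_inv_mul, ← smul_smul, c, smul_smul, inv_mul_cancel₀ b.ne', one_smul] at this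
      exact d'.2 this
    have e1 : l' = l := le_antisymm (k l l' y y' l0 l0' (e ▸ e') (h1 hy) (h2 hy'))
      (k l' l y' y l0' l0 (e' ▸ e) (h2 hy') (h1 hy))
    subst e1
    have e2 : y = y' := smul_right_injective ℂ l0.ne' (e.symm.trans e')
    subst e2
    have : y = z := hz ⟨hy, hy'⟩
    subst this
    exact ⟨l', 0, l0.le, le_rfl, by linarith, by simp [e]⟩
  refine measure_mono_null this ?_
  rw [vol_tri]
  simp [cr, mul_comm]

variable {n : ℕ} (hn : 3 ≤ n)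
include hn

lemma vt1 (φ ε : ℝ) (m : ℤ) :
    vt n φ ε m = L (φ + (2 * m + 1) * (π / n)) (hh n ε m) (aa n ε m) := by
  rw [vt_eq, vert_eq1 hn, nu0]

lemma vt2 (φ ε : ℝ) (m : ℤ) :
    vt n φ ε (m + 1) = L (φ + (2 * m + 1) * (π / n)) (hh n ε m) (aa n ε m + 1) := by
  rw [vt_eq, vert_eq2 hn, nu0]

lemma vt_per2 (φ ε : ℝ) (m q : ℤ) : vt n φ ε (m + n * q) = vt n φ ε m := by
  rw [vt_eq]
  simpa using vert_per hn φ ε 0 m 0 q

lemma pl_half (φ ε : ℝ) (m : ℤ) {x : ℂ} (hx : x ∈ pl n φ ε) :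
    dt (φ + (2 * m + 1) * (π / n)) x ≤ hh n ε m := by
  rw [pl_eq] at hx
  rw [← nu0]; exact half hn φ ε 0 m hx

lemma pl_ball (φ ε : ℝ) : Metric.closedBall (ε • R n • E φ) (R n * cos (π / n)) ⊆ pl n φ ε := by
  rw [pl_eq]
  simpa using ball_sub hn φ ε 0

lemma pl_bdd (φ ε : ℝ) : ∀ y ∈ pl n φ ε, ‖y‖ ≤ R n + |ε| * R n := by
  intro y hy
  rw [pl_eq] at hy
  exact U_bdd hn φ ε y (mem_iUnion.2 ⟨0, hy⟩)

lemma UU_closed {k : ℕ} (hk : 1 ≤ k) (θ ε : ℝ) : IsClosed (UU k n θ ε) := by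
  have hk0 : (0:ℤ) < k := by omega
  have hk1 : (k:ℝ) ≠ 0 := by positivity
  have : UU k n θ ε = ⋃ i ∈ Ico (0:ℤ) k, pl n (θ + 2 * π * i / k) ε := by
    apply Subset.antisymm
    · intro x hx
      obtain ⟨i, hi⟩ := mem_iUnion.1 hx
      refine mem_iUnion₂.2 ⟨i % k, ⟨Int.emod_nonneg i hk0.ne', Int.emod_lt_of_pos i hk0⟩, ?_⟩
      rw [← pl_per n _ ε (i / k)]
      have e : (i:ℝ) = ((i % k : ℤ) : ℝ) + k * ((i / k : ℤ) : ℝ) := by
        exact_mod_cast (Int.emod_add_mul_ediv i k).symm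
      have : θ + 2 * π * ((i % k : ℤ) : ℝ) / k + ((i / k : ℤ) : ℝ) * (2 * π)
          = θ + 2 * π * i / k := by
        rw [e]; field_simp; ring
      rwa [this]
    · exact iUnion₂_subset fun i _ => subset_iUnion (fun i : ℤ => pl n (θ + 2 * π * i / k) ε) i
  rw [this]
  refine (Set.finite_Ico _ _).isClosed_biUnion fun i _ => ?_
  rw [pl_eq]; exact (poly_compact hn _ ε 0).isClosed

lemma UU_pos (k : ℕ) (θ ε : ℝ) : 0 < volume (UU k n θ ε) := by
  have hρ : 0 < R n * cos (π / n) := mul_pos (R_pos hn) (by linarith [cos_al hn])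
  exact lt_of_lt_of_le (Metric.measure_closedBall_pos volume _ hρ)
    (measure_mono ((pl_ball hn _ ε).trans
      (subset_iUnion (fun i : ℤ => pl n (θ + 2 * π * i / k) ε) 0)))

lemma pl_zero (φ : ℝ) {ε : ℝ} (h0 : 0 < ε) (h1 : ε * R n < R n * cos (π / n)) :
    (0:ℂ) ∈ interior (pl n φ ε) := by
  refine interior_mono (Metric.ball_subset_closedBall.trans (pl_ball hn φ ε)) ?_
  rw [Metric.isOpen_ball.interior_eq, Metric.mem_ball, dist_zero_left]
  simp only [norm_smul, norm_E, Real.norm_eq_abs, abs_of_pos (R_pos hn), abs_of_pos h0, mul_one]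
  exact h1

lemma cos_even {p : ℤ} (hp : ¬ (n:ℤ) ∣ p) : cos (2 * p * (π / n)) ≤ cos (2 * (π / n)) := by
  have hn0 : (0:ℤ) < n := by omega
  have h3 : n * (π / n) = π := by
    have : (n:ℝ) ≠ 0 := by linarith [n3 hn]
    field_simp
  have e : (p:ℝ) = ((p % n : ℤ) : ℝ) + n * ((p / n : ℤ) : ℝ) := by
    exact_mod_cast (Int.emod_add_mul_ediv p n).symm
  have e2 : 2 * p * (π / n) = 2 * ((p % n : ℤ) : ℝ) * (π / n) + ((p / n : ℤ) : ℝ) * (2 * π) := by
    rw [e]; linear_combination (2 * ((p / n : ℤ) : ℝ)) * h3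
  rw [e2, cos_add_int_mul_two_pi]
  have h0 := Int.emod_nonneg p hn0.ne'
  have h0' : p % n ≠ 0 := fun h => hp (Int.dvd_of_emod_eq_zero h)
  have h1 : (1:ℝ) ≤ (p % n : ℤ) := by exact_mod_cast (show 1 ≤ p % n by omega)
  have h2 : ((p % n : ℤ) : ℝ) + 1 ≤ n := by exact_mod_cast Int.emod_lt_of_pos p hn0
  have ha := al_pos hn
  apply cos_le_of (by linarith) <;> nlinarith

end Pool.Agent.H.MP_7297ca_co
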