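import Pool.Agent.H.MP_7297ca_co.A

set_option autoImplicit false

namespace Pool.Agent.H.MP_7297ca_co

open Set MeasureTheory Real Filter Topology Pool.Agent.H.MP_ded0ac_co

structure Ctx where
  k : ℕ
  n : ℕ
  u : ℤ
  v : ℤ
  θ : ℝ
  hk : 1 ≤ k
  hn : 3 ≤ n
  huv : n * u + k * v = 1

lemma L_turn {a δ h g : ℝ} (hs : sin δ ≠ 0) :
    L a h ((h * cos δ - g) / sin δ) = L (a - δ) g ((h - g * cos δ) / sin δ) := by
  have := sin_sq_add_cos_sq δ
  apply Complex.ext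
  · simp only [L, cos_sub, sin_sub]
    field_simp
    linear_combination (-g * sin a) * this
  · simp only [L, cos_sub, sin_sub]
    field_simp
    linear_combination (g * cos a) * this

namespace Ctx

variable (c : Ctx)

noncomputable def ga : ℝ := π / (c.n * c.k)
noncomputable def be : ℝ := π / c.n - c.ga
noncomputable def nu (j : ℤ) : ℝ := c.θ + π / c.n + 2 * c.ga * j
noncomputable def ph (j : ℤ) : ℝ := c.θ + 2 * π * ((c.u * j : ℤ) : ℝ) / c.k
noncomputable def rho : ℝ := R c.n * cos (π / c.n)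
noncomputable def TT : ℝ := (1 - cos (2 * c.be)) / sin (2 * c.be)
noncomputable def CC : ℝ := 2 * R c.n / sin (2 * c.be)
noncomputable def H (ε : ℝ) (j : ℤ) : ℝ := hh c.n ε (c.v * j)
noncomputable def A (ε : ℝ) (j : ℤ) : ℝ := aa c.n ε (c.v * j)
noncomputable def V (ε : ℝ) (j : ℤ) : ℂ := vt c.n (c.ph j) ε (c.v * j)
noncomputable def t1 (ε : ℝ) (j : ℤ) : ℝ :=
  (c.H ε j * cos (2 * c.be) - c.H ε (j + 1 - c.k)) / sin (2 * c.be)
noncomputable def t2 (ε : ℝ) (j : ℤ) : ℝ :=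
  (c.H ε (j + c.k - 1) - c.H ε j * cos (2 * c.be)) / sin (2 * c.be)
noncomputable def W (ε : ℝ) (j : ℤ) : ℂ := L (c.nu j) (c.H ε j) (c.t1 ε j)

lemma k1 : (1:ℝ) ≤ c.k := by exact_mod_cast c.hk
lemma kpos : (0:ℝ) < c.k := by linarith [c.k1]
lemma npos : (0:ℝ) < c.n := by linarith [n3 c.hn]
lemma ga_pos : 0 < c.ga := div_pos pi_pos (mul_pos c.npos c.kpos)
lemma ga_k : c.ga * c.k = π / c.n := by
  have := c.kpos; have := c.npos; unfold ga; field_simp
lemma be_eq : c.be = c.ga * (c.k - 1) := by unfold be; rw [← c.ga_k]; ring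
lemma be_nonneg : 0 ≤ c.be := by rw [be_eq]; exact mul_nonneg c.ga_pos.le (by linarith [c.k1])
lemma be_lt : c.be < π / c.n := by unfold be; linarith [c.ga_pos]
lemma be_pos (h : 1 < c.k) : 0 < c.be := by
  have : (1:ℝ) < c.k := by exact_mod_cast h
  rw [be_eq]; exact mul_pos c.ga_pos (by linarith)
lemma be_zero (h : c.k = 1) : c.be = 0 := by rw [be_eq, h]; simp
lemma s2_pos (h : 1 < c.k) : 0 < sin (2 * c.be) :=
  sin_pos_of_pos_of_lt_pi (by linarith [c.be_pos h]) (by linarith [c.be_lt, al_le c.hn, pi_pos])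
lemma s2_nonneg : 0 ≤ sin (2 * c.be) :=
  sin_nonneg_of_nonneg_of_le_pi (by linarith [c.be_nonneg])
    (by linarith [c.be_lt, al_le c.hn, pi_pos])
lemma rho_pos : 0 < c.rho := mul_pos (R_pos c.hn) (by linarith [cos_al c.hn])
lemma huv' : (c.n:ℝ) * c.u + c.k * c.v = 1 := by exact_mod_cast c.huv

lemma ang0 (j : ℤ) : c.ph j + 2 * π * ((c.v * j : ℤ) : ℝ) / c.n = c.θ + 2 * c.ga * j := by
  have := c.kpos; have := c.npos
  have h := c.huv'
  unfold ph ga; push_cast; field_simp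
  linear_combination (2 * π * j) * h

lemma ang (j : ℤ) : c.ph j + (2 * ((c.v * j : ℤ) : ℝ) + 1) * (π / c.n) = c.nu j := by
  have := c.ang0 j
  unfold nu; linear_combination this

lemma V1 (ε : ℝ) (j : ℤ) : c.V ε j = L (c.nu j) (c.H ε j) (c.A ε j) := by
  rw [V, vt1 c.hn, ang]; rfl

lemma ph_k (j q : ℤ) : c.ph (j + c.k * q) = c.ph j + ((c.u * q : ℤ) : ℝ) * (2 * π) := by
  have := c.kpos
  unfold ph; push_cast; field_simp; ring

lemma V2' (ε : ℝ) (j : ℤ) : c.V ε (j + c.k) = vt c.n (c.ph j) ε (c.v * j + 1) := by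
  have h := c.ph_k j 1
  rw [mul_one] at h
  rw [V, h, vt_per1, ← vt_per2 c.hn _ _ (c.v * j + 1) (-c.u)]
  congr 1
  linear_combination c.huv

lemma V2 (ε : ℝ) (j : ℤ) : c.V ε (j + c.k) = L (c.nu j) (c.H ε j) (c.A ε j + 1) := by
  rw [V2', vt2 c.hn, ang]; rfl

lemma V_mem (ε : ℝ) (j : ℤ) : c.V ε j ∈ pl c.n (c.ph j) ε := vt_mem _ _ _ _

lemma V_mem2 (ε : ℝ) (j : ℤ) : c.V ε (j + c.k) ∈ pl c.n (c.ph j) ε := by
  rw [V2']; exact vt_mem _ _ _ _

lemma pl_sub (ε : ℝ) (j : ℤ) : pl c.n (c.ph j) ε ⊆ UU c.k c.n c.θ ε :=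
  subset_iUnion (fun i : ℤ => pl c.n (c.θ + 2 * π * i / c.k) ε) (c.u * j)

lemma nu_sub (j : ℤ) : c.nu (j + 1 - c.k) = c.nu j - 2 * c.be := by
  rw [be_eq]; unfold nu; push_cast; ring

lemma W2 (ε : ℝ) (j : ℤ) :
    c.W ε j = L (c.nu (j + 1 - c.k)) (c.H ε (j + 1 - c.k)) (c.t2 ε (j + 1 - c.k)) := by
  rcases c.hk.eq_or_lt with h | h
  · simp [W, t1, t2, c.be_zero h.symm, ← h]
  · rw [W, t1, t2, L_turn (c.s2_pos h).ne', nu_sub, show j + 1 - c.k + c.k - 1 = j by ring]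

lemma H_per (ε : ℝ) (j q : ℤ) : c.H ε (j + c.n * q) = c.H ε j := by
  rw [H, H, ← hh_per c.hn ε (c.v * j) (c.v * q)]; congr 1; ring

lemma A_per (ε : ℝ) (j q : ℤ) : c.A ε (j + c.n * q) = c.A ε j := by
  rw [A, A, ← aa_per c.hn ε (c.v * j) (c.v * q)]; congr 1; ring

lemma t_per (ε : ℝ) (j q : ℤ) :
    c.t1 ε (j + c.n * q) = c.t1 ε j ∧ c.t2 ε (j + c.n * q) = c.t2 ε j := by
  unfold t1 t2
  rw [show j + c.n * q + 1 - c.k = j + 1 - c.k + c.n * q by ring,
    show j + c.n * q + c.k - 1 = j + c.k - 1 + c.n * q by ring, H_per, H_per, H_per]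
  exact ⟨rfl, rfl⟩

lemma nu_per (j q : ℤ) : c.nu (j + c.n * (c.k * q)) = c.nu j + q * (2 * π) := by
  have := c.kpos; have := c.npos
  unfold nu ga; push_cast; field_simp; ring

lemma half (ε : ℝ) (j : ℤ) {x : ℂ} (hx : x ∈ UU c.k c.n c.θ ε) : ∃ a : ℤ, 0 ≤ a ∧ a < c.k ∧
    dt (c.nu (j - a)) x ≤ c.H ε (j - a) := by
  obtain ⟨i, hi⟩ := mem_iUnion.1 hx
  have hk : (0:ℤ) < c.k := by have := c.hk; omega
  refine ⟨(j - c.n * i) % c.k, Int.emod_nonneg _ hk.ne', Int.emod_lt_of_pos _ hk, ?_⟩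
  rw [← ang]
  apply pl_half c.hn
  have e : j - (j - c.n * i) % c.k = c.n * i + c.k * ((j - c.n * i) / c.k) := by
    linarith [Int.emod_add_mul_ediv (j - c.n * i) c.k]
  rw [e, ph_k, pl_per, ← pl_per _ _ _ (c.v * i)]
  have : c.ph (c.n * i) + ((c.v * i : ℤ) : ℝ) * (2 * π) = c.θ + 2 * π * i / c.k := by
    have := c.kpos
    have h := c.huv'
    unfold ph; push_cast; field_simp
    linear_combination (2 * π * i) * h
  rwa [this]

structure Small (ε : ℝ) : Prop where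
  pos : 0 < ε
  c1 : ∀ b ∈ Ioo (0:ℤ) c.k,
    2 * ε * R c.n < R c.n * (cos (2 * c.ga * b - π / c.n) - cos (π / c.n))
  c2 : ∀ a ∈ Ioo (0:ℤ) (c.k - 1), 2 * ε * R c.n + ε * c.CC
    < c.rho * (cos (2 * c.ga * a) + c.TT * sin (2 * c.ga * a) - 1)
  c3 : ε * R c.n < c.rho
  c4 : ε * R c.n + c.rho * c.TT + ε * c.CC < 1 / 2
  c5 : ε * c.CC ≤ c.rho * c.TT

lemma TT_lt : c.rho * c.TT < 1 / 2 := by
  rcases c.hk.eq_or_lt with h | h
  · simp [TT, c.be_zero h.symm]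
  have h1 := R_sin c.hn
  have h2 := c.s2_pos h
  have h3 : 0 < sin (π / c.n - c.be) :=
    sin_pos_of_pos_of_lt_pi (by linarith [c.be_lt]) (by linarith [c.be_pos h, al_le c.hn, pi_pos])
  have h4 : 0 < sin c.be :=
    sin_pos_of_pos_of_lt_pi (c.be_pos h) (by linarith [c.be_lt, al_le c.hn, pi_pos])
  rw [TT, ← mul_div_assoc, div_lt_iff₀ h2, ← h1, rho, cos_two_mul, sin_two_mul]
  rw [sin_sub] at h3
  have h5 := mul_pos (R_pos c.hn) (mul_pos h4 h3)
  have h6 := sin_sq_add_cos_sq c.be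
  have : R c.n * cos (π / c.n) * (1 - (2 * cos c.be ^ 2 - 1))
      = 2 * R c.n * cos (π / c.n) * sin c.be ^ 2 := by
    linear_combination (-2 * R c.n * cos (π / c.n)) * h6
  rw [this]; nlinarith

lemma TT_pos (h : 1 < c.k) : 0 < c.TT := by
  apply div_pos _ (c.s2_pos h)
  have : cos (2 * c.be) < cos 0 := cos_lt_cos_of_nonneg_of_le_pi le_rfl
    (by linarith [c.be_lt, al_le c.hn, pi_pos]) (by linarith [c.be_pos h])
  rw [cos_zero] at this; linarith

lemma small_ex : ∃ ε0 > 0, ∀ ε ∈ Ioo (0:ℝ) ε0, c.Small ε := by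
  have hg := c.ga_pos
  have hgk := c.ga_k
  have hR := R_pos c.hn
  have ha := al_le c.hn
  have hρ := c.rho_pos
  have e1 : ∀ᶠ ε in 𝓝 (0:ℝ), ∀ b ∈ Ioo (0:ℤ) c.k,
      2 * ε * R c.n < R c.n * (cos (2 * c.ga * b - π / c.n) - cos (π / c.n)) := by
    refine (eventually_all_finite (Set.finite_Ioo _ _)).2 fun b hb => ?_
    apply ContinuousAt.eventually_lt (by fun_prop) (by fun_prop)
    simp only [mul_zero, zero_mul]
    have h1 : (0:ℝ) < b := by exact_mod_cast hb.1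
    have h2 : (b:ℝ) < c.k := by exact_mod_cast hb.2
    have : cos (π / c.n) < cos |2 * c.ga * b - π / c.n| :=
      cos_lt_cos_of_nonneg_of_le_pi (abs_nonneg _) (by linarith [pi_pos])
        (abs_lt.2 ⟨by nlinarith, by nlinarith⟩)
    rw [cos_abs] at this
    exact mul_pos hR (by linarith)
  have e2 : ∀ᶠ ε in 𝓝 (0:ℝ), ∀ a ∈ Ioo (0:ℤ) (c.k - 1), 2 * ε * R c.n + ε * c.CC
      < c.rho * (cos (2 * c.ga * a) + c.TT * sin (2 * c.ga * a) - 1) := by
    refine (eventually_all_finite (Set.finite_Ioo _ _)).2 fun a hb => ?_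
    apply ContinuousAt.eventually_lt (by fun_prop) (by fun_prop)
    simp only [mul_zero, zero_mul, add_zero]
    have hk : 1 < c.k := by have := hb.1; have := hb.2; omega
    have h1 : (0:ℝ) < a := by exact_mod_cast hb.1
    have h2 : (a:ℝ) < c.k - 1 := by exact_mod_cast hb.2
    have hb' := c.be_eq
    have hbl := c.be_lt
    have s1 : 0 < sin (c.ga * a) :=
      sin_pos_of_pos_of_lt_pi (by positivity) (by nlinarith [pi_pos])
    have s2 : 0 < sin c.be := sin_pos_of_pos_of_lt_pi (c.be_pos hk) (by linarith [pi_pos])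
    have s3 : 0 < sin (c.be - c.ga * a) :=
      sin_pos_of_pos_of_lt_pi (by nlinarith) (by nlinarith [pi_pos])
    have s4 := c.s2_pos hk
    apply mul_pos hρ
    have : (cos (2 * c.ga * a) + c.TT * sin (2 * c.ga * a) - 1) * sin (2 * c.be)
        = 4 * sin (c.ga * a) * sin c.be * sin (c.be - c.ga * a) := by
      have e : c.TT * sin (2 * c.be) = 1 - cos (2 * c.be) := by unfold TT; field_simp
      have q1 := sin_sq_add_cos_sq c.be
      have q2 := sin_sq_add_cos_sq (c.ga * a)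
      rw [mul_assoc 2 c.ga, sin_sub]
      rw [cos_two_mul, sin_two_mul] at e
      rw [cos_two_mul, sin_two_mul, sin_two_mul]
      linear_combination (2 * sin (c.ga * a) * cos (c.ga * a)) * e
        + (4 * sin c.be * cos c.be) * q2 - (4 * sin (c.ga * a) * cos (c.ga * a)) * q1
    exact (mul_pos_iff_of_pos_right s4).1 (by rw [this]; positivity)
  have e3 : ∀ᶠ ε in 𝓝 (0:ℝ), ε * R c.n < c.rho := by
    apply ContinuousAt.eventually_lt (by fun_prop) (by fun_prop)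
    simpa using hρ
  have e4 : ∀ᶠ ε in 𝓝 (0:ℝ), ε * R c.n + c.rho * c.TT + ε * c.CC < 1 / 2 := by
    apply ContinuousAt.eventually_lt (by fun_prop) (by fun_prop)
    simp only [zero_mul, add_zero, zero_add]
    exact c.TT_lt
  have e5 : ∀ᶠ ε in 𝓝 (0:ℝ), ε * c.CC ≤ c.rho * c.TT := by
    rcases c.hk.eq_or_lt with h | h
    · simp [TT, CC, c.be_zero h.symm]
    · have : ∀ᶠ ε in 𝓝 (0:ℝ), ε * c.CC < c.rho * c.TT := by
        apply ContinuousAt.eventually_lt (by fun_prop) (by fun_prop)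
        simpa using mul_pos hρ (c.TT_pos h)
      exact this.mono fun _ h => h.le
  obtain ⟨δ, hδ, h⟩ := Metric.eventually_nhds_iff.1 (e1.and (e2.and (e3.and (e4.and e5))))
  refine ⟨δ, hδ, fun ε hε => ?_⟩
  have := h (y := ε) (by rw [Real.dist_eq, sub_zero, abs_of_pos hε.1]; exact hε.2)
  exact ⟨hε.1, this.1, this.2.1, this.2.2.1, this.2.2.2.1, this.2.2.2.2⟩

end Ctx

end Pool.Agent.H.MP_7297ca_co
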