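import Pool.Agent.H.MP_7297ca_co.B

set_option autoImplicit false

namespace Pool.Agent.H.MP_7297ca_co

open Set MeasureTheory Real Filter Topology Pool.Agent.H.MP_ded0ac_co

def Gd (S : Set ℂ) (A B : ℂ) : Prop :=
  ∀ s t : ℝ, 0 ≤ s → 0 ≤ t → s • A + t • B ∈ S → s + t ≤ 1

lemma gd_front {S : Set ℂ} {A B : ℂ} (h : Gd S A B) (hsub : segment ℝ A B ⊆ S) :
    segment ℝ A B ⊆ frontier S := by
  intro x hx
  refine ⟨subset_closure (hsub hx), fun hi => ?_⟩
  obtain ⟨s, t, h1, h2, h3, rfl⟩ := hx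
  have hc : ContinuousAt (fun l : ℝ => l • (s • A + t • B)) 1 := by fun_prop
  have : ∀ᶠ l in 𝓝 (1:ℝ), l • (s • A + t • B) ∈ S := by
    apply hc.eventually_mem
    rw [one_smul]; exact mem_interior_iff_mem_nhds.1 hi
  obtain ⟨l, hl, hl1⟩ := ((this.filter_mono nhdsWithin_le_nhds).and
    (self_mem_nhdsWithin (s := Ioi (1:ℝ)))).exists
  have hl1' : 1 < l := hl1
  rw [smul_add, smul_smul, smul_smul] at hl
  have := h _ _ (by positivity) (by positivity) hl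
  nlinarith

namespace Ctx

variable (c : Ctx) {ε : ℝ} (hs : c.Small ε)

def S1 (ε : ℝ) (j : ℤ) : Set ℂ :=
  segment ℝ (L (c.nu j) (c.H ε j) (c.A ε j)) (L (c.nu j) (c.H ε j) (c.t1 ε j))

def S2 (ε : ℝ) (j : ℤ) : Set ℂ :=
  segment ℝ (L (c.nu j) (c.H ε j) (c.t2 ε j)) (L (c.nu j) (c.H ε j) (c.A ε j + 1))

lemma S_per (ε : ℝ) (j q : ℤ) : c.S1 ε (j + c.n * (c.k * q)) = c.S1 ε j ∧
    c.S2 ε (j + c.n * (c.k * q)) = c.S2 ε j := by
  unfold S1 S2
  rw [nu_per, H_per, A_per, (c.t_per ε j _).1, (c.t_per ε j _).2]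
  simp only [L_per, and_self]

lemma V_per (ε : ℝ) (j q : ℤ) : c.V ε (j + c.n * (c.k * q)) = c.V ε j := by
  rw [V1, V1, nu_per, H_per, A_per, L_per]

include hs

lemma H_abs (j : ℤ) : |c.H ε j - c.rho| ≤ ε * R c.n := by
  have h3 := mul_pos hs.pos (R_pos c.hn)
  unfold H hh rho
  rw [add_sub_cancel_left, abs_mul, abs_of_pos h3]
  exact mul_le_of_le_one_right h3.le (abs_cos_le_one _)

lemma H_pos (j : ℤ) : 0 < c.H ε j := by linarith [(abs_le.1 (c.H_abs hs j)).1, hs.c3]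

lemma A_abs (j : ℤ) : |c.A ε j + 1 / 2| ≤ ε * R c.n := by
  have h3 := mul_pos hs.pos (R_pos c.hn)
  unfold A aa
  rw [show ∀ x : ℝ, -(1 / 2) - x + 1 / 2 = -x by intro x; ring, abs_neg, abs_mul, abs_of_pos h3]
  exact mul_le_of_le_one_right h3.le (abs_sin_le_one _)

lemma t_abs (i j : ℤ) : |(c.H ε i - c.H ε j * cos (2 * c.be)) / sin (2 * c.be) - c.rho * c.TT|
    ≤ ε * c.CC := by
  have e : (c.H ε i - c.H ε j * cos (2 * c.be)) / sin (2 * c.be) - c.rho * c.TT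
      = ((c.H ε i - c.rho) - (c.H ε j - c.rho) * cos (2 * c.be)) / sin (2 * c.be) := by
    unfold TT; ring
  rw [e, abs_div, abs_of_nonneg c.s2_nonneg, CC, ← mul_div_assoc]
  apply div_le_div_of_nonneg_right _ c.s2_nonneg
  refine (abs_sub _ _).trans ?_
  rw [abs_mul]
  have h1 := c.H_abs hs i
  have h2 := c.H_abs hs j
  have h3 := mul_le_of_le_one_right (abs_nonneg (c.H ε j - c.rho)) (abs_cos_le_one (2 * c.be))
  linarith

lemma t1_abs (j : ℤ) : |c.t1 ε j + c.rho * c.TT| ≤ ε * c.CC := by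
  rw [← abs_neg]
  have := c.t_abs hs (j + 1 - c.k) j
  rwa [show (c.H ε (j + 1 - c.k) - c.H ε j * cos (2 * c.be)) / sin (2 * c.be) - c.rho * c.TT
    = -(c.t1 ε j + c.rho * c.TT) by unfold t1; ring] at this

lemma t2_abs (j : ℤ) : |c.t2 ε j - c.rho * c.TT| ≤ ε * c.CC := c.t_abs hs _ j

lemma ord (j : ℤ) : c.A ε j < c.t1 ε j ∧ c.t1 ε j ≤ c.t2 ε j ∧ c.t2 ε j < c.A ε j + 1 := by
  have h1 := abs_le.1 (c.t1_abs hs j)
  have h2 := abs_le.1 (c.t2_abs hs j)
  have h3 := abs_le.1 (c.A_abs hs j)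
  have h4 := hs.c4
  have h5 := hs.c5
  refine ⟨by linarith, by linarith, by linarith⟩

lemma G1 (j b : ℤ) (hb0 : 0 ≤ b) (hb1 : b ≤ c.k) :
    c.H ε (j - b) ≤ dt (c.nu (j - b)) (c.V ε j) := by
  rcases hb0.eq_or_lt with rfl | hb0
  · rw [sub_zero, V1, dt_L]
  rcases hb1.eq_or_lt with rfl | hb1
  · have := c.V2 ε (j - c.k)
    rw [sub_add_cancel] at this
    rw [this, dt_L]
  have e : c.θ + 2 * c.ga * j - c.nu (j - b) = 2 * c.ga * b - π / c.n := by
    unfold nu; push_cast; ring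
  unfold V vt
  rw [dt_add, dt_E, dt_smul, dt_E, ang0, e]
  have h1 := neg_one_le_cos (c.ph j - c.nu (j - b))
  have h2 := (abs_le.1 (c.H_abs hs (j - b))).2
  have h3 := mul_pos hs.pos (R_pos c.hn)
  have h4 := hs.c1 b ⟨hb0, hb1⟩
  unfold rho at h2
  nlinarith

lemma G3 (j a : ℤ) (ha0 : 0 ≤ a) (ha1 : a < c.k) :
    c.H ε (j - a) ≤ dt (c.nu (j - a)) (c.W ε j) := by
  rcases ha0.eq_or_lt with rfl | ha0
  · rw [sub_zero, W, dt_L]
  rcases (show a ≤ c.k - 1 by omega).eq_or_lt with rfl | ha1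
  · rw [W2, show j - (c.k - 1) = j + 1 - c.k by ring, dt_L]
  have e : c.nu (j - a) - c.nu j = -(2 * c.ga * a) := by unfold nu; push_cast; ring
  rw [W, dt_L', e, cos_neg, sin_neg]
  have h1 := (abs_le.1 (c.H_abs hs (j - a))).2
  have h2 : |(c.H ε j - c.rho) * cos (2 * c.ga * a)| ≤ ε * R c.n := by
    rw [abs_mul]
    exact (mul_le_of_le_one_right (abs_nonneg _) (abs_cos_le_one _)).trans (c.H_abs hs j)
  have h3 : |(c.t1 ε j + c.rho * c.TT) * sin (2 * c.ga * a)| ≤ ε * c.CC := by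
    rw [abs_mul]
    exact (mul_le_of_le_one_right (abs_nonneg _) (abs_sin_le_one _)).trans (c.t1_abs hs j)
  have h4 := hs.c2 a ⟨ha0, ha1⟩
  linarith [(abs_le.1 h2).1, (abs_le.1 h3).2]

lemma gd1 (j : ℤ) : Gd (UU c.k c.n c.θ ε) (c.V ε j) (c.W ε j) := by
  intro s t h1 h2 hx
  obtain ⟨a, ha0, ha1, h⟩ := c.half ε j hx
  rw [dt_add, dt_smul, dt_smul] at h
  have g1 := mul_le_mul_of_nonneg_left (c.G1 hs j a ha0 ha1.le) h1
  have g2 := mul_le_mul_of_nonneg_left (c.G3 hs j a ha0 ha1) h2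
  have := c.H_pos hs (j - a)
  nlinarith

lemma gd2 (j : ℤ) : Gd (UU c.k c.n c.θ ε) (c.W ε j) (c.V ε (j + 1)) := by
  intro s t h1 h2 hx
  obtain ⟨a, ha0, ha1, h⟩ := c.half ε j hx
  rw [dt_add, dt_smul, dt_smul] at h
  have g0 := c.G1 hs (j + 1) (a + 1) (by omega) (by omega)
  rw [show j + 1 - (a + 1) = j - a by ring] at g0
  have g1 := mul_le_mul_of_nonneg_left g0 h2
  have g2 := mul_le_mul_of_nonneg_left (c.G3 hs j a ha0 ha1) h1
  have := c.H_pos hs (j - a)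
  nlinarith

lemma star : ∀ y ∈ UU c.k c.n c.θ ε, ∀ l : ℝ, 0 ≤ l → l < 1 →
    l • y ∈ interior (UU c.k c.n c.θ ε) := by
  intro y hy l h0 h1
  obtain ⟨i, hi⟩ := mem_iUnion.1 hy
  apply interior_mono (subset_iUnion (fun i : ℤ => pl c.n (c.θ + 2 * π * i / c.k) ε) i)
  have := (pl_convex _ _ _).combo_interior_self_mem_interior
    (pl_zero c.hn _ hs.pos hs.c3) hi (a := 1 - l) (b := l) (by linarith) h0 (by ring)
  simpa using this

lemma front_gd {A B x : ℂ} (h : Gd (UU c.k c.n c.θ ε) A B)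
    (hsub : segment ℝ A B ⊆ UU c.k c.n c.θ ε)
    {s t : ℝ} (h1 : 0 ≤ s) (h2 : 0 ≤ t) (e : x = s • A + t • B)
    (hx : x ∈ frontier (UU c.k c.n c.θ ε)) : x ∈ segment ℝ A B := by
  have hU : x ∈ UU c.k c.n c.θ ε := (UU_closed c.hn c.hk _ ε).frontier_subset hx
  have h3 := h s t h1 h2 (e ▸ hU)
  rcases h3.eq_or_lt with h3 | h3
  · exact ⟨s, t, h1, h2, h3, e.symm⟩
  exfalso
  apply hx.2
  rcases (add_nonneg h1 h2).eq_or_lt with h4 | h4
  · have : s = 0 := by linarith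
    have : t = 0 := by linarith
    subst_vars
    simpa using c.star hs _ hU 0 le_rfl one_pos
  · have hy : (s / (s + t)) • A + (t / (s + t)) • B ∈ UU c.k c.n c.θ ε :=
      hsub ⟨_, _, by positivity, by positivity, by field_simp, rfl⟩
    have := c.star hs _ hy (s + t) h4.le h3
    rw [smul_add, smul_smul, smul_smul, mul_div_cancel₀ _ h4.ne', mul_div_cancel₀ _ h4.ne'] at this
    rw [e]; exact this

lemma S_sub (j : ℤ) : c.S1 ε j ⊆ UU c.k c.n c.θ ε ∧ c.S2 ε j ⊆ UU c.k c.n c.θ ε := by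
  have h := (pl_convex _ _ _).segment_subset (c.V_mem ε j) (c.V_mem2 ε j)
  obtain ⟨o1, o2, o3⟩ := c.ord hs j
  rw [V1, V2] at h
  constructor
  · intro x hx
    obtain ⟨r, h1, h2, rfl⟩ := (mem_seg_L o1.le).1 hx
    exact c.pl_sub ε j (h ((mem_seg_L (by linarith)).2 ⟨r, h1, by linarith, rfl⟩))
  · intro x hx
    obtain ⟨r, h1, h2, rfl⟩ := (mem_seg_L o3.le).1 hx
    exact c.pl_sub ε j (h ((mem_seg_L (by linarith)).2 ⟨r, by linarith, h2, rfl⟩))

omit hs in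
lemma seg1 (j : ℤ) : segment ℝ (c.V ε j) (c.W ε j) = c.S1 ε j := by rw [V1]; rfl

omit hs in
lemma V3 (j : ℤ) : c.V ε (j + 1)
    = L (c.nu (j + 1 - c.k)) (c.H ε (j + 1 - c.k)) (c.A ε (j + 1 - c.k) + 1) := by
  rw [← V2, sub_add_cancel]

omit hs in
lemma seg2 (j : ℤ) : segment ℝ (c.W ε j) (c.V ε (j + 1)) = c.S2 ε (j + 1 - c.k) := by
  rw [V3, W2]; rfl

lemma S_front (j : ℤ) :
    c.S1 ε j ⊆ frontier (UU c.k c.n c.θ ε) ∧ c.S2 ε j ⊆ frontier (UU c.k c.n c.θ ε) := by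
  constructor
  · rw [← seg1]; exact gd_front (c.gd1 hs j) (by rw [seg1]; exact (c.S_sub hs j).1)
  · have := c.seg2 (ε := ε) (j + c.k - 1)
    rw [show j + c.k - 1 + 1 - c.k = j by ring] at this
    rw [← this]
    exact gd_front (c.gd2 hs _) (by rw [this]; exact (c.S_sub hs j).2)

lemma V_sign (x : ℂ) (σ : ℝ) : ∃ m : ℤ, σ * cr (c.V ε (c.k * m)) x ≤ 0 := by
  by_contra hc
  push Not at hc
  have hcv : Convex ℝ {y : ℂ | 0 < σ * cr y x} := by
    intro y hy z hz a b ha hb hab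
    simp only [mem_setOf_eq] at *
    have : σ * cr (a • y + b • z) x = a * (σ * cr y x) + b * (σ * cr z x) := by
      simp only [cr, Complex.add_re, Complex.add_im, Complex.smul_re, Complex.smul_im,
        smul_eq_mul]; ring
    rw [this]
    rcases ha.eq_or_lt with rfl | ha
    · have : b = 1 := by linarith
      subst this; simpa using hz
    · have := mul_pos ha hy
      have := mul_nonneg hb hz.le
      linarith
  have hsub : pl c.n (c.ph 0) ε ⊆ {y : ℂ | 0 < σ * cr y x} := by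
    refine convexHull_min ?_ hcv
    rintro _ ⟨m, rfl⟩
    have h := hc m
    have e := c.ph_k 0 m
    rw [zero_add] at e
    rw [V, e, vt_per1, show c.v * (c.k * m) = m + c.n * (-(c.u * m)) by
      linear_combination m * c.huv, vt_per2 c.hn] at h
    exact h
  have := hsub (interior_subset (pl_zero c.hn _ hs.pos hs.c3))
  simp [cr] at this

lemma front_eq : frontier (UU c.k c.n c.θ ε)
    = ⋃ j ∈ Finset.range (c.n * c.k), (c.S1 ε j ∪ c.S2 ε j) := by
  have hN : (0:ℤ) < c.n * c.k := by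
    have := c.hk; have := c.hn; positivity
  have red : ∀ j : ℤ, ∃ r ∈ Finset.range (c.n * c.k),
      c.S1 ε j = c.S1 ε r ∧ c.S2 ε j = c.S2 ε r := by
    intro j
    have h0 := Int.emod_nonneg j hN.ne'
    have h1 := Int.emod_lt_of_pos j hN
    refine ⟨(j % (c.n * c.k)).toNat, Finset.mem_range.2 ?_, ?_⟩
    · zify; rw [Int.toNat_of_nonneg h0]; exact h1
    · rw [Int.toNat_of_nonneg h0]
      have := c.S_per ε (j % (c.n * c.k)) (j / (c.n * c.k))
      rwa [← mul_assoc, Int.emod_add_mul_ediv] at this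
  apply Subset.antisymm
  · intro x hx
    obtain ⟨a, ha⟩ := c.V_sign hs x (-1)
    obtain ⟨b, hb⟩ := c.V_sign hs x 1
    rw [← c.V_per ε _ (|c.k * a - c.k * b| + 1), one_mul] at hb
    have hlt : c.k * a < c.k * b + c.n * (c.k * (|c.k * a - c.k * b| + 1)) := by
      rw [← mul_assoc]
      nlinarith [le_abs_self (c.k * a - c.k * b : ℤ), abs_nonneg (c.k * a - c.k * b : ℤ)]
    obtain ⟨j, k1, k2⟩ := sign_change (f := fun j => cr (c.V ε j) x) hlt (by linarith) hb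
    rcases le_total (cr (c.W ε j) x) 0 with k | k
    · have p : 0 < cr (c.V ε j) (c.W ε j) := by
        rw [W, V1, cr_L]
        exact mul_pos (c.H_pos hs j) (by linarith [(c.ord hs j).1])
      obtain ⟨s, t, a1, a2, e⟩ := cone2 p k1 k
      have := c.front_gd hs (c.gd1 hs j) (by rw [seg1]; exact (c.S_sub hs j).1) a1 a2 e hx
      obtain ⟨r, hr, e, -⟩ := red j
      rw [seg1, e] at this
      exact mem_iUnion₂.2 ⟨r, hr, Or.inl this⟩
    · have p : 0 < cr (c.W ε j) (c.V ε (j + 1)) := by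
        rw [W2, V3, cr_L]
        exact mul_pos (c.H_pos hs _) (by linarith [(c.ord hs (j + 1 - c.k)).2.2])
      obtain ⟨s, t, a1, a2, e⟩ := cone2 p k k2
      have := c.front_gd hs (c.gd2 hs j) (by rw [seg2]; exact (c.S_sub hs _).2) a1 a2 e hx
      obtain ⟨r, hr, -, e⟩ := red (j + 1 - c.k)
      rw [seg2, e] at this
      exact mem_iUnion₂.2 ⟨r, hr, Or.inr this⟩
  · exact iUnion₂_subset fun j _ => union_subset (c.S_front hs j).1 (c.S_front hs j).2

end Ctx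

end Pool.Agent.H.MP_7297ca_co
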