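import Pool.Agent.H.MP_7297ca_co.C

set_option autoImplicit false

namespace Pool.Agent.H.MP_7297ca_co

open Set MeasureTheory Real Filter Topology Pool.Agent.H.MP_ded0ac_co

namespace Ctx

variable (c : Ctx)

lemma cos_ne {j i : ℕ} (hj : j < c.n * c.k) (hi : i < c.n * c.k) (hji : j ≠ i) :
    cos (c.nu j - c.nu i) ≠ 1 := by
  have hN : (0:ℝ) < c.n * c.k := mul_pos c.npos c.kpos
  have e : c.nu j - c.nu i = 2 * π * (((j:ℝ) - i) / (c.n * c.k)) := by
    unfold nu ga; push_cast; ring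
  have hj' : (j:ℝ) < c.n * c.k := by exact_mod_cast hj
  have hk' : (i:ℝ) < c.n * c.k := by exact_mod_cast hi
  have hj0 : (0:ℝ) ≤ j := Nat.cast_nonneg j
  have hk0 : (0:ℝ) ≤ i := Nat.cast_nonneg i
  have h1 : ((j:ℝ) - i) / (c.n * c.k) < 1 := by rw [div_lt_one hN]; linarith
  have h2 : -1 < ((j:ℝ) - i) / (c.n * c.k) := by rw [lt_div_iff₀ hN]; linarith
  rw [e]
  intro h
  rw [cos_eq_one_iff_of_lt_of_lt (by nlinarith [pi_pos]) (by nlinarith [pi_pos])] at h
  have h4 : ((j:ℝ) - i) / (c.n * c.k) = 0 := by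
    rcases mul_eq_zero.1 h with h | h
    · linarith [pi_pos]
    · exact h
  rw [div_eq_zero_iff] at h4
  rcases h4 with h4 | h4
  · exact hji (by exact_mod_cast (sub_eq_zero.1 h4))
  · exact hN.ne' h4

noncomputable def cc (j : ℤ) : ℝ := cos ((2 * ((c.v * j : ℤ) : ℝ) + 1) * (π / c.n))

noncomputable def ka : ℝ :=
  (cos (2 * ((c.v - 1 : ℤ) : ℝ) * (π / c.n)) - cos (2 * c.be)) / sin (2 * c.be)

lemma npi : c.n * (π / c.n) = π := by have := c.npos; field_simp

lemma sum_cc : ∑ j ∈ Finset.range (c.n * c.k), c.cc j = 0 := by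
  have h : ∀ M : ℕ, 2 * sin (c.v * (π / c.n)) * ∑ j ∈ Finset.range M, c.cc j
      = sin ((2 * c.v * M + 1 - c.v) * (π / c.n)) - sin ((1 - c.v) * (π / c.n)) := by
    intro M
    induction M with
    | zero => simp
    | succ M ih =>
      rw [Finset.sum_range_succ, mul_add, ih]
      have e1 : (2 * c.v * M + 1 - c.v) * (π / c.n)
          = (2 * ((c.v * (M:ℤ) : ℤ) : ℝ) + 1) * (π / c.n) - c.v * (π / c.n) := by
        push_cast; ring
      have e2 : (2 * c.v * ((M + 1 : ℕ) : ℝ) + 1 - c.v) * (π / c.n)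
          = (2 * ((c.v * (M:ℤ) : ℤ) : ℝ) + 1) * (π / c.n) + c.v * (π / c.n) := by
        push_cast; ring
      rw [e1, e2, sin_sub, sin_add, cc]; ring
  have h1 := h (c.n * c.k)
  have e : (2 * c.v * ((c.n * c.k : ℕ) : ℝ) + 1 - c.v) * (π / c.n)
      = (1 - c.v) * (π / c.n) + ((c.v * c.k : ℤ) : ℝ) * (2 * π) := by
    push_cast; linear_combination (2 * c.v * c.k) * c.npi
  rw [e, sin_add_int_mul_two_pi, sub_self] at h1
  have hs : sin (c.v * (π / c.n)) ≠ 0 := by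
    intro h0
    obtain ⟨m, hm⟩ := sin_eq_zero_iff.1 h0
    have h2 : ((c.n * m : ℤ) : ℝ) = c.v := by
      apply mul_right_cancel₀ (al_pos c.hn).ne'
      push_cast; linear_combination hm + m * c.npi
    have h3 : c.n * m = c.v := by exact_mod_cast h2
    have h4 : (c.n:ℤ) ∣ 1 := ⟨c.u + c.k * m, by linear_combination -c.huv - c.k * h3⟩
    have := Int.le_of_dvd one_pos h4
    have := c.hn
    omega
  simpa [hs] using h1

lemma H_cc (ε : ℝ) (j : ℤ) : c.H ε j = c.rho + ε * R c.n * c.cc j := rfl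

lemma t_diff (ε : ℝ) (j : ℤ) :
    c.t2 ε j - c.t1 ε j = 2 * c.rho * c.TT + 2 * ε * R c.n * c.ka * c.cc j := by
  have h := c.huv'
  have e1 : (2 * ((c.v * (j + c.k - 1) : ℤ) : ℝ) + 1) * (π / c.n)
      = (2 * ((c.v * j : ℤ) : ℝ) + 1) * (π / c.n) - 2 * ((c.v - 1 : ℤ) : ℝ) * (π / c.n)
        + ((-c.u : ℤ) : ℝ) * (2 * π) := by
    push_cast; linear_combination (2 * (π / c.n)) * h - 2 * c.u * c.npi
  have e2 : (2 * ((c.v * (j + 1 - c.k) : ℤ) : ℝ) + 1) * (π / c.n)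
      = (2 * ((c.v * j : ℤ) : ℝ) + 1) * (π / c.n) + 2 * ((c.v - 1 : ℤ) : ℝ) * (π / c.n)
        + ((c.u : ℤ) : ℝ) * (2 * π) := by
    push_cast; linear_combination (-2 * (π / c.n)) * h + 2 * c.u * c.npi
  have : c.cc (j + c.k - 1) + c.cc (j + 1 - c.k)
      = 2 * c.cc j * cos (2 * ((c.v - 1 : ℤ) : ℝ) * (π / c.n)) := by
    unfold cc
    rw [e1, e2, cos_add_int_mul_two_pi, cos_add_int_mul_two_pi, cos_sub, cos_add]; ring
  unfold t1 t2 TT ka
  simp only [H_cc]
  linear_combination (ε * R c.n / sin (2 * c.be)) * this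

lemma ka_pos : 0 < c.ka ↔ 1 < c.k ∧ c.k ≡ 1 [MOD c.n] := by
  have hmod : c.k ≡ 1 [MOD c.n] ↔ (c.n:ℤ) ∣ c.v - 1 := by
    rw [Nat.modEq_iff_dvd]
    constructor
    · rintro ⟨m, hm⟩
      exact ⟨m * c.v - c.u, by push_cast at hm; linear_combination c.huv + c.v * hm⟩
    · rintro ⟨m, hm⟩
      exact ⟨c.u + c.k * m, by push_cast; linear_combination -c.huv + c.k * hm⟩
  rcases c.hk.eq_or_lt with h | h
  · simp [ka, c.be_zero h.symm, ← h]
  rw [ka, div_pos_iff_of_pos_right (c.s2_pos h), hmod]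
  have hb := c.be_pos h
  have hb2 := c.be_lt
  have ha := al_le c.hn
  constructor
  · intro h1
    refine ⟨h, by_contra fun hd => ?_⟩
    have h2 := cos_even c.hn hd
    have h3 : cos (2 * (π / c.n)) < cos (2 * c.be) :=
      cos_lt_cos_of_nonneg_of_le_pi (by linarith) (by linarith [pi_pos]) (by linarith)
    linarith
  · rintro ⟨-, m, hm⟩
    have e : 2 * ((c.v - 1 : ℤ) : ℝ) * (π / c.n) = m * (2 * π) := by
      rw [hm]; push_cast; linear_combination (2 * m) * c.npi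
    have h3 : cos (2 * c.be) < cos 0 :=
      cos_lt_cos_of_nonneg_of_le_pi le_rfl (by linarith [pi_pos]) (by linarith)
    rw [e, cos_int_mul_two_pi]
    rw [cos_zero] at h3; linarith

lemma key {ε : ℝ} (hε : 0 < ε) : 4 * tan (π / c.n) *
    ∑ j ∈ Finset.range (c.n * c.k), c.H ε j * (1 - (c.t2 ε j - c.t1 ε j)) / 2
    < ∑ j ∈ Finset.range (c.n * c.k), (1 - (c.t2 ε j - c.t1 ε j)) ↔ 0 < c.ka := by
  have hc : 0 < cos (π / c.n) := by linarith [cos_al c.hn]
  have hR := R_pos c.hn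
  have ht : 0 < tan (π / c.n) := by rw [tan_eq_sin_div_cos]; exact div_pos (sin_al c.hn) hc
  have h1 : 2 * tan (π / c.n) * c.rho = 1 := by
    rw [tan_eq_sin_div_cos, rho]; have := R_sin c.hn; field_simp; linarith
  rw [Finset.mul_sum, ← sub_pos, ← Finset.sum_sub_distrib]
  have e : ∀ j ∈ Finset.range (c.n * c.k), (1 - (c.t2 ε j - c.t1 ε j))
      - 4 * tan (π / c.n) * (c.H ε j * (1 - (c.t2 ε j - c.t1 ε j)) / 2)
      = -(2 * tan (π / c.n) * ε * R c.n * (1 - 2 * c.rho * c.TT)) * c.cc j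
        + 4 * tan (π / c.n) * (ε * R c.n) ^ 2 * c.ka * c.cc j ^ 2 := by
    intro j _
    rw [t_diff, H_cc]
    linear_combination (-(1 - (2 * c.rho * c.TT + 2 * ε * R c.n * c.ka * c.cc j))) * h1
  rw [Finset.sum_congr rfl e, Finset.sum_add_distrib, ← Finset.mul_sum, sum_cc, mul_zero,
    zero_add, ← Finset.mul_sum]
  have hp : 0 < ∑ j ∈ Finset.range (c.n * c.k), c.cc j ^ 2 := by
    apply Finset.sum_pos' (fun j _ => sq_nonneg _)
    refine ⟨0, Finset.mem_range.2 (by have := c.hk; have := c.hn; positivity), ?_⟩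
    simp only [cc, Nat.cast_zero, Int.cast_zero, mul_zero, zero_add, one_mul]
    positivity
  rw [mul_pos_iff_of_pos_right hp, mul_pos_iff_of_pos_left (by positivity)]

variable {ε : ℝ} (hs : c.Small ε)
include hs

lemma S_line (j : ℤ) : c.S1 ε j ⊆ {x | dt (c.nu j) x = c.H ε j} ∧
    c.S2 ε j ⊆ {x | dt (c.nu j) x = c.H ε j} := by
  constructor
  · intro x hx
    obtain ⟨r, -, -, rfl⟩ := (mem_seg_L (c.ord hs j).1.le).1 hx
    exact dt_L _ _ _
  · intro x hx
    obtain ⟨r, -, -, rfl⟩ := (mem_seg_L (c.ord hs j).2.2.le).1 hx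
    exact dt_L _ _ _

lemma S12 (j : ℤ) : (c.S1 ε j ∩ c.S2 ε j).Subsingleton := by
  have : c.S1 ε j ∩ c.S2 ε j ⊆ {L (c.nu j) (c.H ε j) (c.t1 ε j)} := by
    rintro x ⟨h1, h2⟩
    obtain ⟨r, -, hr, rfl⟩ := (mem_seg_L (c.ord hs j).1.le).1 h1
    obtain ⟨r', hr', -, e⟩ := (mem_seg_L (c.ord hs j).2.2.le).1 h2
    have := L_inj e
    have : r = c.t1 ε j := by linarith [(c.ord hs j).2.1]
    rw [this]; rfl
  exact subsingleton_singleton.anti this

lemma perim : μH[1] (frontier (UU c.k c.n c.θ ε))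
    = ENNReal.ofReal (∑ j ∈ Finset.range (c.n * c.k), (1 - (c.t2 ε j - c.t1 ε j))) := by
  have : NullSingletonClass (μH[1] : Measure ℂ) := Measure.nullSingletonClass_hausdorff ℂ one_pos
  rw [c.front_eq hs, measure_biUnion_finset₀, ENNReal.ofReal_sum_of_nonneg]
  · refine Finset.sum_congr rfl fun j _ => ?_
    obtain ⟨o1, o2, o3⟩ := c.ord hs j
    have hm : NullMeasurableSet (c.S2 ε j) μH[1] := (seg_meas _ _).nullMeasurableSet
    rw [measure_union₀ hm ((c.S12 hs j).measure_zero _)]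
    unfold S1 S2
    rw [mu_seg _ _ _ _ o1.le, mu_seg _ _ _ _ o3.le,
      ← ENNReal.ofReal_add (by linarith) (by linarith)]
    congr 1; ring
  · intro j _
    obtain ⟨o1, o2, o3⟩ := c.ord hs j
    linarith
  · intro j hj k hk hjk
    have := line_inter (c.H_pos hs j) (c.H_pos hs k)
      (c.cos_ne (Finset.mem_range.1 hj) (Finset.mem_range.1 hk) hjk)
    exact (this.anti (inter_subset_inter (union_subset (c.S_line hs j).1 (c.S_line hs j).2)
      (union_subset (c.S_line hs k).1 (c.S_line hs k).2))).measure_zero _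
  · intro j _
    exact ((seg_meas _ _).union (seg_meas _ _)).nullMeasurableSet

lemma area : volume (UU c.k c.n c.θ ε) = ENNReal.ofReal
    (∑ j ∈ Finset.range (c.n * c.k), c.H ε j * (1 - (c.t2 ε j - c.t1 ε j)) / 2) := by
  have hcl := (UU_closed c.hn c.hk c.θ ε).frontier_subset
  have hst : ∀ y ∈ frontier (UU c.k c.n c.θ ε), ∀ l : ℝ, 0 ≤ l → l < 1 →
      l • y ∈ interior (UU c.k c.n c.θ ε) := fun y hy => c.star hs y (hcl hy)
  have h00 : (0:ℂ) ∈ UU c.k c.n c.θ ε :=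
    c.pl_sub ε 0 (interior_subset (pl_zero c.hn _ hs.pos hs.c3))
  have htri : ∀ A B : ℂ, segment ℝ A B ⊆ UU c.k c.n c.θ ε → tri A B ⊆ UU c.k c.n c.θ ε := by
    intro A B h x hx
    by_cases h0 : x = 0
    · rwa [h0]
    obtain ⟨l, l0, l1, y, hy, rfl⟩ := tri_seg hx h0
    rcases l1.eq_or_lt with rfl | l1
    · simpa using h hy
    · exact interior_subset (c.star hs y (h hy) l l0.le l1)
  have hsub : UU c.k c.n c.θ ε = ⋃ j ∈ Finset.range (c.n * c.k),
      (tri (L (c.nu j) (c.H ε j) (c.A ε j)) (L (c.nu j) (c.H ε j) (c.t1 ε j)) ∪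
      tri (L (c.nu j) (c.H ε j) (c.t2 ε j)) (L (c.nu j) (c.H ε j) (c.A ε j + 1))) := by
    apply Subset.antisymm
    · intro x hx
      by_cases h0 : x = 0
      · refine mem_iUnion₂.2 ⟨0, Finset.mem_range.2
          (by have := c.hk; have := c.hn; positivity), Or.inl ?_⟩
        exact ⟨0, 0, le_rfl, le_rfl, by norm_num, by simp [h0]⟩
      · obtain ⟨l, hl, hfr⟩ := ray_frontier (M := R c.n + |ε| * R c.n) (fun y hy => by
          obtain ⟨i, hi⟩ := mem_iUnion.1 hy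
          exact pl_bdd c.hn _ ε y hi) hx h0
        rw [c.front_eq hs] at hfr
        obtain ⟨j, hj, h⟩ := mem_iUnion₂.1 hfr
        refine mem_iUnion₂.2 ⟨j, hj, ?_⟩
        rcases h with h | h
        · exact Or.inl (seg_tri hl h)
        · exact Or.inr (seg_tri hl h)
    · exact iUnion₂_subset fun j _ =>
        union_subset (htri _ _ (c.S_sub hs j).1) (htri _ _ (c.S_sub hs j).2)
  have nm : ∀ A B : ℂ, NullMeasurableSet (tri A B) volume :=
    fun A B => (tri_convex A B).nullMeasurableSet _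
  rw [hsub, measure_biUnion_finset₀, ENNReal.ofReal_sum_of_nonneg]
  · refine Finset.sum_congr rfl fun j _ => ?_
    have hp := c.H_pos hs j
    obtain ⟨o1, o2, o3⟩ := c.ord hs j
    rw [measure_union₀ (nm _ _) (tri_ae hst (c.S_front hs j).1 (c.S_front hs j).2 (c.S12 hs j)),
      vol_tri, vol_tri, cr_L, cr_L, abs_of_nonneg (mul_nonneg hp.le (by linarith)),
      abs_of_nonneg (mul_nonneg hp.le (by linarith)),
      ← ENNReal.ofReal_add (div_nonneg (mul_nonneg hp.le (by linarith)) (by norm_num))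
        (div_nonneg (mul_nonneg hp.le (by linarith)) (by norm_num))]
    congr 1; ring
  · intro j _
    have hp := c.H_pos hs j
    obtain ⟨o1, o2, o3⟩ := c.ord hs j
    exact div_nonneg (mul_nonneg hp.le (by linarith)) (by norm_num)
  · intro j hj k hk hjk
    have := line_inter (c.H_pos hs j) (c.H_pos hs k)
      (c.cos_ne (Finset.mem_range.1 hj) (Finset.mem_range.1 hk) hjk)
    have a1 := c.S_line hs j
    have a2 := c.S_line hs k
    have f1 := c.S_front hs j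
    have f2 := c.S_front hs k
    simp only [Function.onFun, AEDisjoint.union_left_iff, AEDisjoint.union_right_iff]
    exact ⟨⟨tri_ae hst f1.1 f2.1 (this.anti (inter_subset_inter a1.1 a2.1)),
      tri_ae hst f1.2 f2.1 (this.anti (inter_subset_inter a1.2 a2.1))⟩,
      tri_ae hst f1.1 f2.2 (this.anti (inter_subset_inter a1.1 a2.2)),
      tri_ae hst f1.2 f2.2 (this.anti (inter_subset_inter a1.2 a2.2))⟩
  · intro j _
    exact (nm _ _).union (nm _ _)

lemma ratio : 4 * tan (π / c.n) < (μH[1] (frontier (UU c.k c.n c.θ ε))).toReal /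
    (volume (UU c.k c.n c.θ ε)).toReal ↔ 1 < c.k ∧ c.k ≡ 1 [MOD c.n] := by
  have ha := c.area hs
  have hpos : 0 < (volume (UU c.k c.n c.θ ε)).toReal :=
    ENNReal.toReal_pos (UU_pos c.hn c.k c.θ ε).ne' (by rw [ha]; exact ENNReal.ofReal_ne_top)
  have hnn : 0 ≤ ∑ j ∈ Finset.range (c.n * c.k), (1 - (c.t2 ε j - c.t1 ε j)) :=
    Finset.sum_nonneg fun j _ => by
      obtain ⟨o1, o2, o3⟩ := c.ord hs j
      linarith
  have hnn2 : 0 ≤ ∑ j ∈ Finset.range (c.n * c.k), c.H ε j * (1 - (c.t2 ε j - c.t1 ε j)) / 2 :=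
    Finset.sum_nonneg fun j _ => by
      obtain ⟨o1, o2, o3⟩ := c.ord hs j
      exact div_nonneg (mul_nonneg (c.H_pos hs j).le (by linarith)) (by norm_num)
  rw [lt_div_iff₀ hpos, c.perim hs, ha, ENNReal.toReal_ofReal hnn, ENNReal.toReal_ofReal hnn2,
    c.key hs.pos, ka_pos]

end Ctx

theorem main (k n : ℕ) (hk : 1 ≤ k) (hn : 3 ≤ n) (hkn : Nat.Coprime k n) (θ : ℝ) :
    ∃ ε₁ > 0, ∀ ε ∈ Ioo (0:ℝ) ε₁,
      (μH[1] (frontier (UU k n θ ε)) ≠ ⊤ ∧ volume (UU k n θ ε) ≠ ⊤ ∧ volume (UU k n θ ε) ≠ 0) ∧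
      (4 * tan (π / n) < (μH[1] (frontier (UU k n θ ε))).toReal / (volume (UU k n θ ε)).toReal
        ↔ 1 < k ∧ k ≡ 1 [MOD n]) := by
  obtain ⟨v, u, h⟩ := Nat.isCoprime_iff_coprime.2 hkn
  let c : Ctx := ⟨k, n, u, v, θ, hk, hn, by linarith⟩
  obtain ⟨ε₁, h1, h2⟩ := c.small_ex
  refine ⟨ε₁, h1, fun ε hε => ⟨⟨?_, ?_, (UU_pos hn k θ ε).ne'⟩, c.ratio (h2 ε hε)⟩⟩
  · have := c.perim (h2 ε hε)
    exact this ▸ ENNReal.ofReal_ne_top
  · have := c.area (h2 ε hε)
    exact this ▸ ENNReal.ofReal_ne_top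

end Pool.Agent.H.MP_7297ca_co
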